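import Pool.Agent.Lib_helper2.K4.DefsH
import Pool.Agent.Lib_helper2.K4.Bridge
import Pool.Agent.Lib_helper24.K4D2.Closed

set_option autoImplicit false
set_option linter.unusedSectionVars false

/-!
The `x`-differences determine the Siegel units of all torsion points.
-/

namespace Pool.Agent.MK4

section abs

variable {T V : Type*} [AddCommGroup T] [AddCommGroup V] [Module ℚ V]

/-- a function with `h(a+b) + h(a-b) = 2h(a) + 2h(b)` for `a ≠ ±b` on a divisible torsion group
with enough points vanishes -/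
theorem quad_zero {h : T → V} (h0 : h 0 = 0)
    (hh : ∀ a b : T, a ≠ b → a ≠ -b → h (a + b) + h (a - b) = (2 : ℚ) • h a + (2 : ℚ) • h b)
    (hdiv : ∀ a : T, ∃ b, b + b = a)
    (hmany : ∀ S : Finset T, S.card ≤ 5 → ∃ y ∉ S, y + y ≠ 0)
    (htor : ∀ a : T, ∃ k m : ℕ, k < m ∧ (2 ^ k : ℕ) • a = (2 ^ m : ℕ) • a) (a : T) : h a = 0 := by
  classical
  have key : ∀ x y : T, x ≠ y → x ≠ -y → x + x ≠ 0 → y + y ≠ 0 →
      h (y + y) - (4 : ℚ) • h y = -(h (x + x) - (4 : ℚ) • h x) := by
    intro x y h1 h2 h3 h4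
    -- `a = x`, `b = y - x`
    have e1 := hh (x + y) (y - x)
      (fun e => h3 (by
        have : x + y - (y - x) = 0 := sub_eq_zero.mpr e
        rw [← this]; abel))
      (fun e => h4 (by
        have : x + y + (y - x) = 0 := by rw [e]; abel
        rw [← this]; abel))
    have e2 := hh y x (Ne.symm h1) (fun e => h2 (by rw [e, neg_neg]))
    rw [show x + y + (y - x) = y + y by abel, show x + y - (y - x) = x + x by abel] at e1
    rw [add_comm y x] at e2
    have e3 : h (y + y) = (2 : ℚ) • h (x + y) + (2 : ℚ) • h (y - x) - h (x + x) := by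
      rw [← e1]; abel
    have e4 : h (x + y) = (2 : ℚ) • h y + (2 : ℚ) • h x - h (y - x) := by rw [← e2]; abel
    rw [e3, e4]
    module
  have c0 : ∀ x : T, x + x ≠ 0 → h (x + x) = (4 : ℚ) • h x := by
    intro x hx
    obtain ⟨y, hy, hy2⟩ := hmany {x, -x} (le_trans (Finset.card_insert_le _ _) (by simp))
    obtain ⟨z, hz, hz2⟩ := hmany {x, -x, y, -y} (by
      refine le_trans (Finset.card_insert_le _ _) ?_
      have h1 := Finset.card_insert_le (-x) ({y, -y} : Finset T)
      have h2 := Finset.card_insert_le y ({-y} : Finset T)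
      rw [Finset.card_singleton] at h2
      omega)
    simp only [Finset.mem_insert, Finset.mem_singleton, not_or] at hy hz
    have k1 := key x y (Ne.symm hy.1) (fun e => hy.2 (by rw [e, neg_neg])) hx hy2
    have k2 := key y z (Ne.symm hz.2.2.1) (fun e => hz.2.2.2 (by rw [e, neg_neg])) hy2 hz2
    have k3 := key z x hz.1 hz.2.1 hz2 hx
    rw [k2, k1] at k3
    have : (2 : ℚ) • (h (x + x) - (4 : ℚ) • h x) = 0 := by
      rw [two_smul]
      nth_rewrite 1 [k3]
      abel
    exact sub_eq_zero.mp ((smul_eq_zero.mp this).resolve_left two_ne_zero)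
  have ev : ∀ x : T, h (-x) = h x := by
    intro x
    by_cases hx : x = 0
    · rw [hx, neg_zero]
    · have e := hh 0 x (Ne.symm hx) (fun e => hx (by rw [← neg_eq_zero]; exact e.symm))
      rw [zero_add, zero_sub, h0, smul_zero, zero_add] at e
      have : h (-x) = (2 : ℚ) • h x - h x := by rw [← e]; abel
      rw [this]; module
  have c1 : ∀ x : T, h (x + x) = (4 : ℚ) • h x := by
    intro x
    by_cases hx : x + x = 0
    · by_cases hx0 : x = 0
      · rw [hx0, add_zero, h0, smul_zero]
      obtain ⟨y, hy⟩ := hdiv x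
      have hy2 : y + y ≠ 0 := by rw [hy]; exact hx0
      have e1 := c0 y hy2
      rw [hy] at e1
      have e2 := hh y x
        (fun e => hx0 (by
          have : y + y - y = 0 := by rw [hy, e]; abel
          have hy0 : y = 0 := by rw [← this]; abel
          rw [← e, hy0]))
        (fun e => hx0 (by
          have h1 : x + y = 0 := by rw [e]; abel
          have h2 : y + y + y = 0 := by rw [hy]; exact h1
          have h3 : y + y + (y + y) = 0 := by rw [hy]; exact hx
          have h4 : y = 0 := by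
            have : y + y + (y + y) - (y + y + y) = 0 := by rw [h3, h2, sub_zero]
            rw [← this]; abel
          rw [← hy, h4, add_zero]))
      have h4 : y + x = -y := by
        rw [eq_neg_iff_add_eq_zero, ← hx]
        nth_rewrite 2 [← hy]
        abel
      have h5 : y - x = -y := by rw [← hy]; abel
      rw [h4, h5, ev] at e2
      have h6 : (2 : ℚ) • h x = 0 := by
        have : (2 : ℚ) • h x = (h y + h y) - (2 : ℚ) • h y := by rw [e2]; abel
        rw [this]; module
      rw [hx, h0, (smul_eq_zero.mp h6).resolve_left two_ne_zero, smul_zero]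
    · exact c0 x hx
  have c2 : ∀ (k : ℕ) (x : T), h ((2 ^ k : ℕ) • x) = (4 : ℚ) ^ k • h x := by
    intro k x
    induction k with
    | zero => simp
    | succ k ih =>
      rw [pow_succ, mul_comm, mul_smul, two_nsmul, c1, ih, smul_smul]
      congr 1
      ring
  obtain ⟨k, m, hkm, e⟩ := htor a
  have h1 := c2 k a
  have h2 := c2 m a
  rw [e, h2] at h1
  have h3 : ((4 : ℚ) ^ k - 4 ^ m) • h a = 0 := by rw [sub_smul, h1, sub_self]
  exact (smul_eq_zero.mp h3).resolve_left (K4M.four_pow_sub_ne hkm)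

/-- two functions with the same `pg` agree -/
theorem pg_unique {g g' : T → V}
    (hg : ∀ a b : T, a ≠ b → a ≠ -b → pg g a b = pg g' a b)
    (hdiv : ∀ a : T, ∃ b, b + b = a)
    (hmany : ∀ S : Finset T, S.card ≤ 5 → ∃ y ∉ S, y + y ≠ 0)
    (htor : ∀ a : T, ∃ k m : ℕ, k < m ∧ (2 ^ k : ℕ) • a = (2 ^ m : ℕ) • a) : g = g' := by
  have hq : ∀ a b : T, a ≠ b → a ≠ -b → (g (a + b) - g' (a + b)) + (g (a - b) - g' (a - b)) =
      (2 : ℚ) • (g a - g' a) + (2 : ℚ) • (g b - g' b) := by
    intro a b h1 h2
    have e := hg a b h1 h2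
    unfold pg at e
    have e1 : g (a + b) = g' (a + b) + g' (a - b) - 2 • g' a - 2 • g' b + 2 • g a + 2 • g b
        - g (a - b) := by rw [← e]; abel
    rw [e1]
    module
  have h0 : g 0 - g' 0 = 0 := by
    obtain ⟨y, hy, -⟩ := hmany {0} (by simp)
    rw [Finset.mem_singleton] at hy
    have e := hq y 0 hy (by rw [neg_zero]; exact hy)
    rw [add_zero, sub_zero] at e
    have : (2 : ℚ) • (g 0 - g' 0) = 0 := by
      have h' : (2 : ℚ) • (g 0 - g' 0) = (g y - g' y) + (g y - g' y) - (2 : ℚ) • (g y - g' y) := by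
        rw [e]; abel
      rw [h']; module
    exact (smul_eq_zero.mp this).resolve_left two_ne_zero
  funext a
  exact sub_eq_zero.mp (quad_zero (h := fun a => g a - g' a) h0 hq hdiv hmany htor a)

end abs

section H

open Pool.Agent.K4D2

variable {F : Type*} [Field F] [CharZero F] [IsAlgClosed F] [DecidableEq F]
  {W : WeierstrassCurve.Affine F}

lemma many_T (hW : W.Δ ≠ 0) (S : Finset (To W)) (hS : S.card ≤ 5) :
    ∃ y ∉ S, y + y ≠ (0 : To W) := by
  classical
  by_contra hno
  push Not at hno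
  have hcard := (td_closed (W := W) hW).card 4
  have h1 : (Finset.univ.map ⟨fun x : tor (K4M.TP W) (4 + 1) => (x : To W),
      Subtype.val_injective⟩).card = 25 := by
    rw [Finset.card_map, Finset.card_univ, hcard]
    norm_num
  have h2 : (Finset.univ.map ⟨fun x : tor (K4M.TP W) (4 + 1) => (x : To W),
      Subtype.val_injective⟩) ⊆ insert 0 S := by
    intro y hy
    obtain ⟨x, -, rfl⟩ := Finset.mem_map.mp hy
    rw [Finset.mem_insert]
    by_contra hc
    push Not at hc
    have h3 := hno _ hc.2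
    have h5 : (4 + 1) • (x : To W) = 0 := mem_tor.mp x.2
    apply hc.1
    show (x : To W) = 0
    have h4 : (x : To W) + (x : To W) = 0 := h3
    generalize (x : To W) = z at h4 h5 ⊢
    have : z = (4 + 1) • z - (z + z) - (z + z) := by abel
    rw [this, h5, h4]; simp
  have h3 := Finset.card_le_card h2
  have h4 := Finset.card_insert_le (0 : To W) S
  omega

lemma tor_T (a : To W) : ∃ k m : ℕ, k < m ∧ (2 ^ k : ℕ) • a = (2 ^ m : ℕ) • a := by
  have hf : Finite (AddSubgroup.zmultiples a) := by
    obtain ⟨n, hn, h⟩ := K4M.TP_tor a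
    exact finite_zmultiples.mpr (isOfFinAddOrder_iff_nsmul_eq_zero.mpr ⟨n, hn, h⟩)
  obtain ⟨k, m, hkm, e⟩ := K4M.exists_pow_eq
    (⟨a, AddSubgroup.mem_zmultiples a⟩ : AddSubgroup.zmultiples a)
  refine ⟨k, m, hkm, ?_⟩
  have := congrArg (fun z : AddSubgroup.zmultiples a => (z : To W)) e
  simpa using this

/-- (L1) the `x`-differences determine the Siegel units -/
theorem siegel_unique (hW : W.Δ ≠ 0) {g : To W → FT F}
    (h : ∀ a b : To W, a ≠ b → a ≠ -b → lg (dx (a : W.Point) b) = pg g a b) :
    g = (K4M.gT : To W → FT F) := by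
  have hg : ∀ a b : To W, a ≠ b → a ≠ -b →
      pg g a b = pg (K4M.gT : To W → FT F) a b := by
    intro a b h1 h2
    rw [← h a b h1 h2, dx_eq]
    refine (K4M.gT_rel h1 h2).trans ?_
    show _ = K4M.gT (a + b) + K4M.gT (a - b) - (2 : ℕ) • K4M.gT a - (2 : ℕ) • K4M.gT b
    rw [← Nat.cast_smul_eq_nsmul ℚ, ← Nat.cast_smul_eq_nsmul ℚ]
    rfl
  exact pg_unique hg (fun a => K4M.TD.half (td_closed hW) a) (fun S hS => many_T hW S hS) tor_T

end H

end Pool.Agent.MK4
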